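import Mathlib
import Pool.Agent.Mg.Xd232b3.Gafd84c

/- The second term in the bound of Littlewood for zeta on the line of real part one under RH. -/

set_option autoImplicit false

namespace Pool.Agent.Results.MP_d232b3_nt.OneLine

open Complex Pool.Agent.MP_d232b3_nt.Z

theorem result (hRH : RiemannHypothesis) (ε : ℝ) (hε : 0 < ε) :
    ∃ T : ℝ, ∀ t : ℝ, T ≤ t →
      ‖riemannZeta (1 + t * I)‖ ≤
        2 * Real.exp Real.eulerMascheroniConstant * (Real.log (Real.log t) - 1 / 2 + ε) :=
  corD hRH logS (u_all hRH) ein ε hε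

end Pool.Agent.Results.MP_d232b3_nt.OneLine
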